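import Pool.Agent.Q195.CE1

set_option autoImplicit false

open Pool.Agent.Q195.CE

namespace Pool.Agent.Results.MP_68f07c_an.NotEquivalent

/-- A biorthogonal system with both sequences basic and `[x_n] + [f_n]_perp` closed for which
`(f_n)` is not equivalent to the coefficient functionals. -/
theorem result : ∃ (E : Type) (_ : NormedAddCommGroup E) (_ : NormedSpace ℝ E) (_ : CompleteSpace E)
    (x : ℕ → E) (f : ℕ → E →L[ℝ] ℝ), (∀ i j, f i (x j) = if i = j then 1 else 0) ∧
    IsBasic x ∧ IsBasic f ∧
    IsClosed (((Submodule.span ℝ (Set.range x)).topologicalClosure ⊔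
      ⨅ n, LinearMap.ker (f n).toLinearMap : Submodule ℝ E) : Set E) ∧
    ¬ Equivalent f (fun n => (f n).comp
      ((Submodule.span ℝ (Set.range x)).topologicalClosure).subtypeL) := by
  obtain ⟨f, h⟩ := main
  exact ⟨E2 × E1, inferInstance, inferInstance, inferInstance, xx, f, h⟩

end Pool.Agent.Results.MP_68f07c_an.NotEquivalent
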